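import Pool.Agent.H53.HR.Targets

/-!
# MP_f2da09_co, linear independent sets: modules IPC and ROW
-/

namespace Pool.Agent.H67.HR

open Finset
open Pool.Agent.H53.HR
open Pool.Agent.H53.CZD (lc LE VMClosed R0)

theorem ip_mem {V : Type} [DecidableEq V] {G : SimpleGraph V} {a : V} {U : Finset V}
    (h : IP G a U) : a ∈ U := by
  cases h with
  | single => exact mem_singleton_self a
  | cons b U hb ha hab hn => exact mem_insert_self _ _

/-- **IPC.** -/
theorem ipc (hLQA : LQA) : IPC := by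
  intro V _ G H U a hIP
  induction hIP with
  | single a => intro _; exact ⟨G, LQ.refl, by rw [sum_singleton]⟩
  | cons a b U hb ha hab hn ih =>
    intro hdis
    have hdU : Disjoint U H := disjoint_of_subset_left (subset_insert a U) hdis
    obtain ⟨G1, hG1, hnb⟩ := ih hdU
    obtain ⟨-, hmono, -, hrow⟩ := hLQA V (U.erase b) G G1 hG1
    have hbU : b ∈ U := ip_mem hb
    have hrow' : ∀ y, (G1.Adj a y ↔ G.Adj a y) := by
      apply hrow a
      intro q hq hadj
      rw [mem_erase] at hq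
      exact hn q hq.2 hq.1 hadj.symm
    refine ⟨lc G1 b, ?_, ?_⟩
    · rw [erase_insert ha]
      exact LQ.step b hbU (hmono U (erase_subset b U))
    · rw [sum_insert ha, ← hnb]
      have hba : G1.Adj b a := ((hrow' b).mpr hab).symm
      funext i
      show (nb (lc G1 b) H a) i = nb G H a i + nb G1 H b i
      unfold nb
      by_cases hi : i ∈ H
      · have hia : a ≠ i := by
          rintro rfl
          exact (disjoint_left.mp hdis (mem_insert_self _ _)) hi
        have hadj : (lc G1 b).Adj a i ↔ ¬ (G.Adj a i ↔ G1.Adj b i) := by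
          show (a ≠ i ∧ ¬ (G1.Adj a i ↔ (G1.Adj b a ∧ G1.Adj b i))) ↔ _
          rw [hrow' i]
          constructor
          · rintro ⟨-, h⟩ h'
            exact h (h'.trans ⟨fun h => ⟨hba, h⟩, fun h => h.2⟩)
          · intro h
            exact ⟨hia, fun h' => h (h'.trans ⟨fun h => h.2, fun h => ⟨hba, h⟩⟩)⟩
        by_cases h1 : G.Adj a i <;> by_cases h2 : G1.Adj b i
        · have h3 : ¬ (lc G1 b).Adj a i := by rw [hadj]; simp [h1, h2]
          rw [if_neg (fun h => h3 h.2), if_pos ⟨hi, h1⟩, if_pos ⟨hi, h2⟩]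
          decide
        · have h3 : (lc G1 b).Adj a i := by rw [hadj]; simp [h1, h2]
          rw [if_pos ⟨hi, h3⟩, if_pos ⟨hi, h1⟩, if_neg (fun h => h2 h.2), add_zero]
        · have h3 : (lc G1 b).Adj a i := by rw [hadj]; simp [h1, h2]
          rw [if_pos ⟨hi, h3⟩, if_neg (fun h => h1 h.2), if_pos ⟨hi, h2⟩, zero_add]
        · have h3 : ¬ (lc G1 b).Adj a i := by rw [hadj]; simp [h1, h2]
          rw [if_neg (fun h => h3 h.2), if_neg (fun h => h1 h.2), if_neg (fun h => h2 h.2),
            add_zero]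
      · rw [if_neg (fun h => hi h.1), if_neg (fun h => hi h.1), if_neg (fun h => hi h.1), add_zero]

/-- **ROW.** -/
theorem row (hFM : FM) (hTRS : TRS) (hIPC : IPC) (hGEO : GEO) (hLQA : LQA) : ROW := by
  intro V _ G R H hR hdis hH hind B hB
  obtain ⟨G1, Q, hQR, hLQ, hQ, hcard, hind1⟩ := hFM V G R H hR hdis hH hind
  obtain ⟨P, hP, hPU⟩ := hGEO V G1 Q hQ
  have hlt : #B < #P := by rw [hcard] at hP; omega
  have hinj : Set.InjOn (fun U : Finset V => ∑ u ∈ U, nb G1 H u) (P : Set (Finset V)) := by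
    intro U hU U' hU' h
    exact hTRS V G1 Q H hcard hind1 U (hPU U hU).1 U' (hPU U' hU').1 h
  have hex : ∃ U ∈ P, ∑ u ∈ U, nb G1 H u ∉ B := by
    by_contra hcon
    push Not at hcon
    have := card_le_card_of_injOn (fun U : Finset V => ∑ u ∈ U, nb G1 H u) hcon hinj
    omega
  obtain ⟨U, hU, hUB⟩ := hex
  obtain ⟨hUQ, a, haU, hIP⟩ := hPU U hU
  have hUR : U ⊆ R := hUQ.trans hQR
  obtain ⟨G', hG', hnb⟩ := hIPC V G1 H U a hIP (disjoint_of_subset_left hUR hdis)
  refine ⟨a, hUR haU, G', ?_, ?_⟩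
  · have h1 : LQ R G1 G' := (hLQA V (U.erase a) G1 G' hG').2.1 R ((erase_subset a U).trans hUR)
    exact (hLQA V R G G1 hLQ).2.2.1 G' h1
  · rw [hnb]
    exact hUB

end Pool.Agent.H67.HR
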